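import Mathlib

/-!
Proper homotopies of rays: equivalence relation, reparametrisation, gluing.
-/

set_option autoImplicit false

open Filter Topology Set
open scoped NNReal unitInterval

namespace Pool.Agent.PBR

/-- Two maps `[0, ∞) → X` are properly homotopic. -/
def PHom {X : Type} [TopologicalSpace X] (r s : ℝ≥0 → X) : Prop :=
  ∃ H : ℝ≥0 × I → X, IsProperMap H ∧ (∀ t, H (t, 0) = r t) ∧ ∀ t, H (t, 1) = s t

section

variable {X : Type} [TopologicalSpace X] [T2Space X] [LocallyCompactSpace X]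

/-- Properness of maps from the product of the half line and a compact space. -/
lemma proper_iff {Y : Type} [TopologicalSpace Y] [CompactSpace Y] [T2Space Y]
    (f : ℝ≥0 × Y → X) : IsProperMap f ↔ Continuous f ∧
      ∀ C : Set X, IsCompact C → ∃ N : ℝ≥0, ∀ t y, N ≤ t → f (t, y) ∉ C := by
  rw [isProperMap_iff_isCompact_preimage]
  constructor
  · rintro ⟨hc, h⟩
    refine ⟨hc, fun C hC => ?_⟩
    have h1 : IsCompact (Prod.fst '' (f ⁻¹' C)) := (h hC).image continuous_fst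
    obtain ⟨N, hN⟩ := h1.bddAbove
    refine ⟨N + 1, fun t y ht hmem => ?_⟩
    have h2 : t ≤ N := hN ⟨(t, y), hmem, rfl⟩
    have h3 : N + 1 ≤ N := ht.trans h2
    exact absurd h3 (not_le.mpr (lt_add_one N))
  · rintro ⟨hc, h⟩
    refine ⟨hc, fun C hC => ?_⟩
    obtain ⟨N, hN⟩ := h C hC
    have hsub : f ⁻¹' C ⊆ Icc 0 N ×ˢ univ := by
      rintro ⟨t, y⟩ hty
      refine ⟨⟨zero_le, ?_⟩, mem_univ _⟩
      by_contra hlt
      exact hN t y (not_le.mp hlt).le hty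
    exact (isCompact_Icc.prod isCompact_univ).of_isClosed_subset (hC.isClosed.preimage hc) hsub

/-- Properness of rays. -/
lemma proper_ray_iff (r : ℝ≥0 → X) : IsProperMap r ↔ Continuous r ∧
      ∀ C : Set X, IsCompact C → ∃ N : ℝ≥0, ∀ t, N ≤ t → r t ∉ C := by
  rw [isProperMap_iff_isCompact_preimage]
  constructor
  · rintro ⟨hc, h⟩
    refine ⟨hc, fun C hC => ?_⟩
    obtain ⟨N, hN⟩ := (h hC).bddAbove
    refine ⟨N + 1, fun t ht hmem => ?_⟩
    have h2 : t ≤ N := hN hmem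
    have h3 : N + 1 ≤ N := ht.trans h2
    exact absurd h3 (not_le.mpr (lt_add_one N))
  · rintro ⟨hc, h⟩
    refine ⟨hc, fun C hC => ?_⟩
    obtain ⟨N, hN⟩ := h C hC
    have hsub : r ⁻¹' C ⊆ Icc 0 N := by
      intro t ht
      refine ⟨zero_le, ?_⟩
      by_contra hlt
      exact hN t (not_le.mp hlt).le ht
    exact isCompact_Icc.of_isClosed_subset (hC.isClosed.preimage hc) hsub

lemma PHom.symm {r s : ℝ≥0 → X} (h : PHom r s) : PHom s r := by
  obtain ⟨H, hH, h0, h1⟩ := h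
  rw [proper_iff] at hH
  refine ⟨fun p => H (p.1, σ p.2), (proper_iff _).mpr ⟨?_, ?_⟩, ?_, ?_⟩
  · exact hH.1.comp (by fun_prop)
  · intro C hC
    obtain ⟨N, hN⟩ := hH.2 C hC
    exact ⟨N, fun t y ht => hN t _ ht⟩
  · intro t
    simp [h1]
  · intro t
    simp [h0]

lemma PHom.trans {r s q : ℝ≥0 → X} (h : PHom r s) (h' : PHom s q) : PHom r q := by
  obtain ⟨H, hH, h0, h1⟩ := h
  obtain ⟨H', hH', h0', h1'⟩ := h'
  rw [proper_iff] at hH hH'
  set K : ℝ≥0 × I → X := fun p => if (p.2 : ℝ) ≤ 1 / 2 then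
    H (p.1, projIcc 0 1 zero_le_one (2 * (p.2 : ℝ))) else
    H' (p.1, projIcc 0 1 zero_le_one (2 * (p.2 : ℝ) - 1)) with hK
  refine ⟨K, (proper_iff _).mpr ⟨?_, ?_⟩, ?_, ?_⟩
  · rw [hK]
    refine Continuous.if_le ?_ ?_ (by fun_prop) continuous_const ?_
    · exact hH.1.comp (continuous_fst.prodMk (continuous_projIcc.comp (by fun_prop)))
    · exact hH'.1.comp (continuous_fst.prodMk (continuous_projIcc.comp (by fun_prop)))
    · rintro ⟨t, u⟩ hu
      have hu' : (u : ℝ) = 1 / 2 := hu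
      have e1 : projIcc (0:ℝ) 1 zero_le_one (2 * (u : ℝ)) = 1 := by
        rw [hu']; norm_num
      have e2 : projIcc (0:ℝ) 1 zero_le_one (2 * (u : ℝ) - 1) = 0 := by
        rw [hu']; norm_num
      show H (t, projIcc 0 1 zero_le_one (2 * (u : ℝ))) =
        H' (t, projIcc 0 1 zero_le_one (2 * (u : ℝ) - 1))
      rw [e1, e2, h1, h0']
  · intro C hC
    obtain ⟨N, hN⟩ := hH.2 C hC
    obtain ⟨N', hN'⟩ := hH'.2 C hC
    refine ⟨max N N', fun t y ht => ?_⟩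
    rw [hK]
    show (if (y : ℝ) ≤ 1 / 2 then
      H (t, projIcc 0 1 zero_le_one (2 * (y : ℝ))) else
      H' (t, projIcc 0 1 zero_le_one (2 * (y : ℝ) - 1))) ∉ C
    split_ifs
    · exact hN t _ ((le_max_left _ _).trans ht)
    · exact hN' t _ ((le_max_right _ _).trans ht)
  · intro t
    have e : projIcc (0:ℝ) 1 zero_le_one (2 * ((0 : I) : ℝ)) = 0 := by
      simp
    show (if ((0 : I) : ℝ) ≤ 1 / 2 then
      H (t, projIcc 0 1 zero_le_one (2 * ((0 : I) : ℝ))) else _) = r t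
    rw [if_pos (by norm_num), e, h0]
  · intro t
    have e : projIcc (0:ℝ) 1 zero_le_one (2 * ((1 : I) : ℝ) - 1) = 1 := by
      have : (2 * ((1 : I) : ℝ) - 1) = 1 := by norm_num
      rw [this]
      simp
    show (if ((1 : I) : ℝ) ≤ 1 / 2 then _ else
      H' (t, projIcc 0 1 zero_le_one (2 * ((1 : I) : ℝ) - 1))) = q t
    rw [if_neg (by norm_num), e, h1']

/-- Reparametrisation. -/
lemma PHom.reparam {r : ℝ≥0 → X} (hr : IsProperMap r) {θ : ℝ≥0 → ℝ≥0} (hθ : Continuous θ)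
    (hθ' : ∀ N : ℝ≥0, ∃ M : ℝ≥0, ∀ t, M ≤ t → N ≤ θ t) : PHom (r ∘ θ) r := by
  rw [proper_ray_iff] at hr
  refine ⟨fun p => r (Real.toNNReal ((1 - (p.2 : ℝ)) * θ p.1 + (p.2 : ℝ) * p.1)),
    (proper_iff _).mpr ⟨?_, ?_⟩, ?_, ?_⟩
  · exact hr.1.comp (continuous_real_toNNReal.comp (by fun_prop))
  · intro C hC
    obtain ⟨N, hN⟩ := hr.2 C hC
    obtain ⟨M, hM⟩ := hθ' N
    refine ⟨max M N, fun t y ht => hN _ ?_⟩
    have h1 : N ≤ θ t := hM t ((le_max_left _ _).trans ht)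
    have h2 : N ≤ t := (le_max_right _ _).trans ht
    have h1' : (N : ℝ) ≤ θ t := by exact_mod_cast h1
    have h2' : (N : ℝ) ≤ t := by exact_mod_cast h2
    have hy0 := y.2.1
    have hy1 := y.2.2
    rw [Real.le_toNNReal_iff_coe_le (by positivity)]
    · nlinarith
  · intro t
    show r (Real.toNNReal ((1 - ((0 : I) : ℝ)) * θ t + ((0 : I) : ℝ) * t)) = r (θ t)
    congr 1
    simp
  · intro t
    show r (Real.toNNReal ((1 - ((1 : I) : ℝ)) * θ t + ((1 : I) : ℝ) * t)) = r t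
    congr 1
    simp

end

/-- Gluing along the integers. -/
lemma continuous_glue {X Y : Type} [TopologicalSpace X] [TopologicalSpace Y]
    {f : ℕ → ℝ × Y → X} (hf : ∀ n, Continuous (f n))
    (hm : ∀ n y, f n (1, y) = f (n + 1) (0, y)) :
    Continuous (fun p : ℝ≥0 × Y => f ⌊p.1⌋₊ ((p.1 : ℝ) - (⌊p.1⌋₊ : ℝ), p.2)) := by
  have hlf : LocallyFinite (fun n : ℕ => (Icc (n : ℝ≥0) ((n : ℝ≥0) + 1)) ×ˢ (univ : Set Y)) := by
    rintro ⟨t, y⟩
    refine ⟨Iio (t + 1) ×ˢ univ, ?_, ?_⟩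
    · exact prod_mem_nhds (Iio_mem_nhds (lt_add_one t)) univ_mem
    · apply (finite_le_nat ⌊t + 1⌋₊).subset
      rintro n ⟨⟨s, z⟩, ⟨hs1, -⟩, hs2, -⟩
      have h1 : (n : ℝ≥0) ≤ s := hs1.1
      have h2 : s < t + 1 := hs2
      exact Nat.le_floor (h1.trans h2.le)
  refine hlf.continuous ?_ (fun n => isClosed_Icc.prod isClosed_univ) ?_
  · rw [eq_univ_iff_forall]
    rintro ⟨t, y⟩
    rw [mem_iUnion]
    exact ⟨⌊t⌋₊, ⟨Nat.floor_le zero_le, (Nat.lt_floor_add_one t).le⟩, mem_univ _⟩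
  · intro n
    have hc : Continuous (fun p : ℝ≥0 × Y => f n ((p.1 : ℝ) - (n : ℝ), p.2)) :=
      (hf n).comp (by fun_prop)
    refine hc.continuousOn.congr ?_
    rintro ⟨t, y⟩ ⟨⟨h1, h2⟩, -⟩
    rcases h2.lt_or_eq with h | h
    · have : ⌊t⌋₊ = n := by
        rw [Nat.floor_eq_iff zero_le]
        exact ⟨h1, h⟩
      show f ⌊t⌋₊ ((t : ℝ) - (⌊t⌋₊ : ℝ), y) = f n ((t : ℝ) - (n : ℝ), y)
      rw [this]
    · have hfl : ⌊t⌋₊ = n + 1 := by
        rw [Nat.floor_eq_iff zero_le]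
        have h' : t = (n : ℝ≥0) + 1 := h
        rw [h']
        push_cast
        exact ⟨le_rfl, lt_add_one _⟩
      have ht : (t : ℝ) = (n : ℝ) + 1 := by
        have h' : t = (n : ℝ≥0) + 1 := h
        rw [h']; push_cast; ring
      show f ⌊t⌋₊ ((t : ℝ) - (⌊t⌋₊ : ℝ), y) = f n ((t : ℝ) - (n : ℝ), y)
      rw [hfl, ht]
      push_cast
      rw [show (n : ℝ) + 1 - ((n : ℝ) + 1) = 0 by ring, show (n : ℝ) + 1 - (n : ℝ) = 1 by ring]
      exact (hm n y).symm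

end Pool.Agent.PBR
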