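import Pool.Agent.PBR.Block

/-!
The ray with backtracks along a parabolically bounded sequence is parabolically bounded.
-/

set_option autoImplicit false

open Filter Topology Set

namespace Pool.Agent.PBR

variable {G A : Type} [Group G] {gen : A → G}

lemma nbh_mul {P : Subgroup G} {C : ℕ} {h g x : G} (hx : h * x ∈ Nbh gen P C g) :
    x ∈ Nbh gen P C (h⁻¹ * g) := by
  obtain ⟨p, hp, c, hc, e⟩ := hx
  refine ⟨p, hp, c, hc, ?_⟩
  rw [← inv_mul_cancel_left h x, e]
  group

lemma ParBdd.mul {m : ℕ} {P : Fin m → Subgroup G} {v : ℕ → G} (hv : ParBdd gen P v) (h : G) :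
    ParBdd gen P (fun n => h * v n) := by
  intro C
  obtain ⟨K, hK⟩ := hv C
  exact ⟨K, fun i g a b hab hn => hK i (h⁻¹ * g) a b hab fun n h1 h2 => nbh_mul (hn n h1 h2)⟩

/-- A parabolically bounded edge path may start anywhere. -/
lemma parBdd_vert_iff {m : ℕ} {P : Fin m → Subgroup G} (g h : G) (w : ℕ → A × Bool) :
    ParBdd gen P (vert gen g w) → ParBdd gen P (vert gen h w) := by
  intro hv
  have e : vert gen h w = fun n => (h * g⁻¹) * vert gen g w n := by
    funext n
    rw [← vert_mul]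
    congr 1
    group
  rw [e]
  exact hv.mul _

theorem parBdd_bt {m : ℕ} {P : Fin m → Subgroup G} {ρ : ℕ → A × Bool}
    (hρ : ParBdd gen P (vert gen 1 ρ)) (L : ℕ → ℕ)
    (hL : ∀ k : ℕ, ∃ D N : ℕ, ∀ M, N ≤ M → ∃ n, M ≤ n ∧ n < M + D ∧ k ≤ L n)
    (w : ℕ → A × Bool) (g : G) : ParBdd gen P (vert gen g (bt L ρ w)) := by
  classical
  intro C
  obtain ⟨K, hK⟩ := hρ C
  obtain ⟨D, N, hDN⟩ := hL (K + 1)
  refine ⟨2 * K + 1 + T L N + D * (2 * (K + 1) + 1) + (K + 1), fun i g' a b hab h => ?_⟩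
  -- pieces in the first half of a block
  have factA : ∀ n p q, p ≤ q → q ≤ L n → a ≤ T L n + p → T L n + q ≤ b → q - p ≤ K := by
    intro n p q hpq hq ha hb
    refine hK i ((vert gen g w n)⁻¹ * g') p q hpq fun j h1 h2 => nbh_mul ?_
    rw [← vert_up gen L ρ w g n (vert_T gen L ρ w g n) j (by omega)]
    exact h _ (by omega) (by omega)
  -- pieces in the second half of a block
  have factB : ∀ n p q, p ≤ q → q ≤ L n → a ≤ T L n + (L n + p) → T L n + (L n + q) ≤ b →
      q - p ≤ K := by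
    intro n p q hpq hq ha hb
    have h3 : (L n - p) - (L n - q) ≤ K := by
      refine hK i ((vert gen g w n)⁻¹ * g') (L n - q) (L n - p) (by omega)
        fun j h1 h2 => nbh_mul ?_
      have h4 := vert_down gen L ρ w g n (vert_T gen L ρ w g n) (L n - j) (by omega)
      rw [show L n - (L n - j) = j by omega] at h4
      rw [← h4]
      exact h _ (by omega) (by omega)
    omega
  have h1 := idx_le L a
  have h2 := lt_idx L a
  generalize idx L a = n₁ at h1 h2
  -- the next block with a long backtrack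
  have hex : ∃ n, max (n₁ + 1) N ≤ n ∧ K + 1 ≤ L n := by
    obtain ⟨n, e1, -, e3⟩ := hDN (max (n₁ + 1) N) (le_max_right _ _)
    exact ⟨n, e1, e3⟩
  obtain ⟨n₂, hn2, hmin⟩ : ∃ n₂, (max (n₁ + 1) N ≤ n₂ ∧ K + 1 ≤ L n₂) ∧
      ∀ n, n < n₂ → ¬ (max (n₁ + 1) N ≤ n ∧ K + 1 ≤ L n) :=
    ⟨Nat.find hex, Nat.find_spec hex, fun n hn => Nat.find_min hex hn⟩
  obtain ⟨hn2a, hn2b⟩ := hn2
  have hn2D : n₂ < max (n₁ + 1) N + D := by
    obtain ⟨n, e1, e2, e3⟩ := hDN (max (n₁ + 1) N) (le_max_right _ _)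
    by_contra hlt
    exact hmin n (by omega) ⟨e1, e3⟩
  -- the length of the blocks in between
  have hT : ∀ j, max (n₁ + 1) N + j ≤ n₂ →
      T L (max (n₁ + 1) N + j) ≤ T L (max (n₁ + 1) N) + j * (2 * (K + 1) + 1) := by
    intro j
    induction j with
    | zero => intro _; simp
    | succ j ih =>
      intro hj
      have e1 := ih (by omega)
      have e2 : L (max (n₁ + 1) N + j) < K + 1 := by
        by_contra hlt
        exact hmin (max (n₁ + 1) N + j) (by omega) ⟨by omega, by omega⟩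
      have e3 := T_succ L (max (n₁ + 1) N + j)
      rw [show max (n₁ + 1) N + (j + 1) = max (n₁ + 1) N + j + 1 by omega, e3]
      have e4 : (j + 1) * (2 * (K + 1) + 1) = j * (2 * (K + 1) + 1) + (2 * (K + 1) + 1) := by
        ring
      omega
  obtain ⟨j, rfl⟩ := Nat.exists_eq_add_of_le hn2a
  have h3 := hT j le_rfl
  have h4 : j * (2 * (K + 1) + 1) ≤ D * (2 * (K + 1) + 1) := Nat.mul_le_mul_right _ (by omega)
  have h5 : T L (max (n₁ + 1) N) ≤ T L (n₁ + 1) + T L N := by
    rcases le_total (n₁ + 1) N with h | h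
    · rw [max_eq_right h]; omega
    · rw [max_eq_left h]; omega
  have h6 : T L (n₁ + 1) ≤ T L (max (n₁ + 1) N + j) :=
    (T_strictMono L).monotone (by omega)
  -- the end comes before the end of this long backtrack
  have h7 : b < T L (max (n₁ + 1) N + j) + (K + 1) := by
    by_contra hlt
    have := factA (max (n₁ + 1) N + j) 0 (K + 1) (by omega) hn2b (by omega) (by omega)
    omega
  rw [T_succ] at h2 h5 h6
  -- the block of the start
  have h8 : b ≤ a + 2 * K ∨ T L n₁ + 2 * L n₁ ≤ a + 2 * K := by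
    by_contra hcon
    push Not at hcon
    obtain ⟨c1, c2⟩ := hcon
    rcases le_or_gt a (T L n₁ + L n₁) with hc | hc
    · rcases le_or_gt b (T L n₁ + L n₁) with hb | hb
      · have := factA n₁ (a - T L n₁) (b - T L n₁) (by omega) (by omega) (by omega) (by omega)
        omega
      · have e1 := factA n₁ (a - T L n₁) (L n₁) (by omega) (by omega) (by omega) (by omega)
        rcases le_or_gt b (T L n₁ + 2 * L n₁) with hb2 | hb2
        · have e2 := factB n₁ 0 (b - (T L n₁ + L n₁)) (by omega) (by omega) (by omega) (by omega)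
          omega
        · have e2 := factB n₁ 0 (L n₁) (by omega) (by omega) (by omega) (by omega)
          omega
    · rcases le_or_gt b (T L n₁ + 2 * L n₁) with hb2 | hb2
      · have e2 := factB n₁ (a - (T L n₁ + L n₁)) (b - (T L n₁ + L n₁)) (by omega) (by omega)
          (by omega) (by omega)
        omega
      · have e2 := factB n₁ (a - (T L n₁ + L n₁)) (L n₁) (by omega) (by omega) (by omega)
          (by omega)
        omega
  rcases h8 with h8 | h8
  · omega
  · omega

/-- The ruler sequence. -/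
def ruler (n : ℕ) : ℕ := padicValNat 2 (n + 1)

lemma ruler_spec (k M : ℕ) : ∃ n, M ≤ n ∧ n < M + 2 ^ k ∧ k ≤ ruler n := by
  have hpos : 0 < 2 ^ k := by positivity
  have h1 := Nat.div_add_mod M (2 ^ k)
  have h2 := Nat.mod_lt M hpos
  refine ⟨2 ^ k * (M / 2 ^ k + 1) - 1, ?_, ?_, ?_⟩
  · rw [mul_add, mul_one]; omega
  · rw [mul_add, mul_one]; omega
  · unfold ruler
    have e : 2 ^ k * (M / 2 ^ k + 1) - 1 + 1 = 2 ^ k * (M / 2 ^ k + 1) := by
      rw [mul_add, mul_one]; omega
    rw [e]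
    exact (padicValNat_dvd_iff_le (by positivity)).mp (dvd_mul_right _ _)

/-- The lengths of the backtracks. -/
noncomputable def lens (gen : A → G) (v : ℕ → G) (n : ℕ) : ℕ :=
  min (ruler n) (len gen (v n) / 2)

lemma lens_ruler {v : ℕ → G} (hv : Esc gen v) (k : ℕ) :
    ∃ D N : ℕ, ∀ M, N ≤ M → ∃ n, M ≤ n ∧ n < M + D ∧ k ≤ lens gen v n := by
  obtain ⟨N, hN⟩ := hv (2 * k)
  refine ⟨2 ^ k, N, fun M hM => ?_⟩
  obtain ⟨n, h1, h2, h3⟩ := ruler_spec k M
  have h4 := hN n (by omega)
  exact ⟨n, h1, h2, le_min h3 (by omega)⟩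

lemma lens_small {v : ℕ → G} (hv : Esc gen v) (R : ℕ) :
    ∃ N, ∀ n, N ≤ n → R + lens gen v n < len gen (v n) := by
  obtain ⟨N, hN⟩ := hv (2 * R)
  refine ⟨N, fun n hn => ?_⟩
  have h1 := hN n hn
  have h2 : lens gen v n ≤ len gen (v n) / 2 := min_le_right _ _
  omega

end Pool.Agent.PBR
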