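import Pool.Agent.PBR.Len

/-!
Inserting backtracks into an edge-path ray.
-/

set_option autoImplicit false

open Filter Topology Set
open scoped NNReal unitInterval

namespace Pool.Agent.PBR

/-- The starting times of the blocks; block `n` has length `2 L n + 1`. -/
def T (L : ℕ → ℕ) : ℕ → ℕ
  | 0 => 0
  | n + 1 => T L n + (2 * L n + 1)

/-- The index of the block which contains the time `k`. -/
def idx (L : ℕ → ℕ) (k : ℕ) : ℕ := Nat.findGreatest (fun n => T L n ≤ k) k

lemma T_succ (L : ℕ → ℕ) (n : ℕ) : T L (n + 1) = T L n + (2 * L n + 1) := rfl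

lemma T_strictMono (L : ℕ → ℕ) : StrictMono (T L) :=
  strictMono_nat_of_lt_succ fun n => by rw [T_succ]; omega

lemma le_T (L : ℕ → ℕ) (n : ℕ) : n ≤ T L n := (T_strictMono L).le_apply

lemma idx_le (L : ℕ → ℕ) (k : ℕ) : T L (idx L k) ≤ k := by
  have h : (fun n => T L n ≤ k) 0 := Nat.zero_le _
  exact Nat.findGreatest_spec (P := fun n => T L n ≤ k) (Nat.zero_le k) h

lemma lt_idx (L : ℕ → ℕ) (k : ℕ) : k < T L (idx L k + 1) := by
  by_contra hlt
  have h1 : T L (idx L k + 1) ≤ k := not_lt.mp hlt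
  have h2 : idx L k + 1 ≤ k := (le_T L _).trans h1
  have h3 := Nat.le_findGreatest (P := fun n => T L n ≤ k) h2 h1
  have h4 : idx L k + 1 ≤ idx L k := h3
  omega

lemma idx_eq (L : ℕ → ℕ) {n k : ℕ} (h1 : T L n ≤ k) (h2 : k < T L (n + 1)) : idx L k = n := by
  have h3 := idx_le L k
  have h4 := lt_idx L k
  have h5 : n < idx L k + 1 := (T_strictMono L).lt_iff_lt.mp (h1.trans_lt h4)
  have h6 : idx L k < n + 1 := (T_strictMono L).lt_iff_lt.mp (h3.trans_lt h2)
  omega

section

variable {G A : Type} [Group G] (gen : A → G)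

/-- The letters of a block: `L` letters of `ρ`, the same letters backwards, and the letter `l`. -/
def blk (ρ : ℕ → A × Bool) (L : ℕ) (l : A × Bool) (j : ℕ) : A × Bool :=
  if j < L then ρ j else if j < 2 * L then inv (ρ (2 * L - 1 - j)) else l

/-- The word `w` with a backtrack of length `L n` along `ρ` before its letter `n`. -/
def bt (L : ℕ → ℕ) (ρ w : ℕ → A × Bool) (k : ℕ) : A × Bool :=
  blk ρ (L (idx L k)) (w (idx L k)) (k - T L (idx L k))

lemma bt_apply (L : ℕ → ℕ) (ρ w : ℕ → A × Bool) (n j : ℕ) (hj : j ≤ 2 * L n) :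
    bt L ρ w (T L n + j) = blk ρ (L n) (w n) j := by
  have h : idx L (T L n + j) = n := idx_eq L (by omega) (by rw [T_succ]; omega)
  unfold bt
  rw [h, Nat.add_sub_cancel_left]

lemma vert_up (L : ℕ → ℕ) (ρ w : ℕ → A × Bool) (g : G) (n : ℕ)
    (hn : vert gen g (bt L ρ w) (T L n) = vert gen g w n) (j : ℕ) (hj : j ≤ L n) :
    vert gen g (bt L ρ w) (T L n + j) = vert gen g w n * vert gen 1 ρ j := by
  induction j with
  | zero => simpa [vert] using hn
  | succ j ih =>
    have h1 : vert gen g (bt L ρ w) (T L n + (j + 1)) =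
      vert gen g (bt L ρ w) (T L n + j) * val gen (bt L ρ w (T L n + j)) := rfl
    rw [h1, ih (by omega), bt_apply L ρ w n j (by omega)]
    unfold blk
    rw [if_pos (by omega), mul_assoc]
    rfl

lemma vert_down (L : ℕ → ℕ) (ρ w : ℕ → A × Bool) (g : G) (n : ℕ)
    (hn : vert gen g (bt L ρ w) (T L n) = vert gen g w n) (j : ℕ) (hj : j ≤ L n) :
    vert gen g (bt L ρ w) (T L n + (L n + j)) = vert gen g w n * vert gen 1 ρ (L n - j) := by
  induction j with
  | zero => exact vert_up gen L ρ w g n hn (L n) le_rfl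
  | succ j ih =>
    have h1 : vert gen g (bt L ρ w) (T L n + (L n + (j + 1))) =
      vert gen g (bt L ρ w) (T L n + (L n + j)) * val gen (bt L ρ w (T L n + (L n + j))) := rfl
    rw [h1, ih (by omega), bt_apply L ρ w n _ (by omega)]
    unfold blk
    rw [if_neg (by omega), if_pos (by omega), val_inv]
    obtain ⟨i, hi⟩ : ∃ i, L n - j = i + 1 := ⟨L n - j - 1, by omega⟩
    have h2 : 2 * L n - 1 - (L n + j) = i := by omega
    have h3 : L n - (j + 1) = i := by omega
    rw [hi, h2, h3, mul_assoc]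
    congr 1
    show vert gen 1 ρ i * val gen (ρ i) * (val gen (ρ i))⁻¹ = vert gen 1 ρ i
    rw [mul_inv_cancel_right]

lemma vert_T (L : ℕ → ℕ) (ρ w : ℕ → A × Bool) (g : G) (n : ℕ) :
    vert gen g (bt L ρ w) (T L n) = vert gen g w n := by
  induction n with
  | zero => rfl
  | succ n ih =>
    have h1 : vert gen g (bt L ρ w) (T L (n + 1)) =
      vert gen g (bt L ρ w) (T L n + (L n + L n)) *
        val gen (bt L ρ w (T L n + (L n + L n))) := by
      rw [T_succ, show T L n + (2 * L n + 1) = T L n + (L n + L n) + 1 by omega]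
      rfl
    rw [h1, vert_down gen L ρ w g n ih _ le_rfl, bt_apply L ρ w n _ (by omega)]
    unfold blk
    rw [if_neg (by omega), if_neg (by omega), Nat.sub_self]
    show vert gen g w n * 1 * val gen (w n) = vert gen g w n * val gen (w n)
    rw [mul_one]

end

section

variable {G A X : Type} [Group G] [TopologicalSpace X] [MulAction G X]
variable (gen : A → G) {x₀ : X} (γ : ∀ a, Path x₀ (gen a • x₀))

/-- The backtrack (for `y ≥ 0`) and the edge (for `y ≤ 0`) of a block. -/
noncomputable def kap (v : G) (l : A × Bool) (ρ : ℕ → A × Bool) (y : ℝ) : X :=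
  if 0 ≤ y then v • ray gen γ 1 ρ y.toNNReal else edge gen γ v l (-y)

lemma kap_zero (v : G) (l : A × Bool) (ρ : ℕ → A × Bool) : kap gen γ v l ρ 0 = v • x₀ := by
  unfold kap
  rw [if_pos le_rfl, Real.toNNReal_zero, ray_zero, one_smul]

lemma kap_neg (v : G) (l : A × Bool) (ρ : ℕ → A × Bool) {x : ℝ} (hx : 0 ≤ x) :
    kap gen γ v l ρ (-x) = edge gen γ v l x := by
  rcases hx.eq_or_lt with h | h
  · rw [← h, neg_zero, kap_zero, edge_zero]
  · unfold kap
    rw [if_neg (by linarith), neg_neg]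

lemma kap_pos (v : G) (l : A × Bool) (ρ : ℕ → A × Bool) (k : ℕ) {x : ℝ} (h0 : 0 ≤ x) (h1 : x ≤ 1) :
    kap gen γ v l ρ (k + x) = edge gen γ (v * vert gen 1 ρ k) (ρ k) x := by
  unfold kap
  rw [if_pos (by positivity), edge_mul, ray_add gen γ 1 ρ k h0 h1 _
    (Real.coe_toNNReal _ (by positivity))]

lemma continuous_kap [ContinuousConstSMul G X] (v : G) (l : A × Bool) (ρ : ℕ → A × Bool) :
    Continuous (kap gen γ v l ρ) := by
  unfold kap
  refine Continuous.if_le ?_ ?_ continuous_const continuous_id ?_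
  · exact ((continuous_ray gen γ 1 ρ).comp continuous_real_toNNReal).const_smul v
  · exact (continuous_edge gen γ v l).comp continuous_neg
  · intro y hy
    have hy' : (0 : ℝ) = y := hy
    rw [← hy', Real.toNNReal_zero, ray_zero, neg_zero, edge_zero, one_smul]

/-- The ray with backtracks on a block. -/
lemma ray_bt (L : ℕ → ℕ) (ρ w : ℕ → A × Bool) (g : G) (n : ℕ) {x : ℝ} (h0 : 0 ≤ x)
    (h1 : x ≤ 2 * L n + 1) (t : ℝ≥0) (ht : (t : ℝ) = T L n + x) :
    ray gen γ g (bt L ρ w) t =
      kap gen γ (vert gen g w n) (w n) ρ (L n - |x - L n|) := by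
  obtain ⟨j, x', hj, hx0, hx1, rfl⟩ : ∃ (j : ℕ) (x' : ℝ), j ≤ 2 * L n ∧ 0 ≤ x' ∧ x' ≤ 1 ∧
      x = j + x' := by
    rcases h1.lt_or_eq with h | h
    · refine ⟨⌊x⌋₊, x - ⌊x⌋₊, ?_, ?_, ?_, by ring⟩
      · have h2 : ⌊x⌋₊ < 2 * L n + 1 := by
          rw [Nat.floor_lt h0]
          push_cast
          exact h
        omega
      · have := Nat.floor_le h0
        linarith
      · have := Nat.lt_floor_add_one x
        linarith
    · exact ⟨2 * L n, 1, le_rfl, zero_le_one, le_rfl, by rw [h]; push_cast; ring⟩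
  rw [ray_add gen γ g (bt L ρ w) (T L n + j) hx0 hx1 t (by rw [ht]; push_cast; ring),
    bt_apply L ρ w n j hj]
  have hn := vert_T gen L ρ w g n
  rcases lt_or_ge j (L n) with hjL | hjL
  · rw [vert_up gen L ρ w g n hn j hjL.le]
    unfold blk
    rw [if_pos hjL]
    have hle : (j : ℝ) + x' ≤ L n := by
      have : (j : ℝ) + 1 ≤ L n := by exact_mod_cast hjL
      linarith
    rw [abs_of_nonpos (by linarith), show (L n : ℝ) - -((j : ℝ) + x' - L n) = j + x' by ring,
      kap_pos gen γ _ _ _ _ hx0 hx1]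
  · obtain ⟨i, rfl⟩ := Nat.exists_eq_add_of_le hjL
    have hge : (L n : ℝ) ≤ ((L n + i : ℕ) : ℝ) + x' := by
      push_cast
      have : (0 : ℝ) ≤ i := Nat.cast_nonneg i
      linarith
    rw [vert_down gen L ρ w g n hn i (by omega), abs_of_nonneg (by linarith)]
    unfold blk
    rw [if_neg (by omega)]
    split_ifs with hlt
    · obtain ⟨k, hk⟩ : ∃ k, L n = i + (k + 1) := ⟨L n - i - 1, by omega⟩
      have e1 : L n - i = k + 1 := by omega
      have e2 : 2 * L n - 1 - (L n + i) = k := by omega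
      rw [e1, e2]
      have e3 : (L n : ℝ) - (((L n + i : ℕ) : ℝ) + x' - L n) = k + (1 - x') := by
        push_cast
        rw [hk]
        push_cast
        ring
      rw [e3, kap_pos gen γ _ _ _ _ (by linarith) (by linarith)]
      show edge gen γ (vert gen g w n * (vert gen 1 ρ k * val gen (ρ k))) (inv (ρ k)) x' = _
      rw [← mul_assoc, edge_inv]
    · have e0 : i = L n := by omega
      subst e0
      have e3 : (L n : ℝ) - (((L n + L n : ℕ) : ℝ) + x' - L n) = -x' := by
        push_cast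
        ring
      rw [e3, kap_neg gen γ _ _ _ hx0, Nat.sub_self]
      show edge gen γ (vert gen g w n * 1) (w n) x' = _
      rw [mul_one]

end

end Pool.Agent.PBR
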