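import Pool.Agent.PBR.Block

/-!
An edge-path ray is properly homotopic to the same ray with backtracks, if the backtracks are
short in comparison with the distance from the base point.
-/

set_option autoImplicit false

open Filter Topology Set
open scoped NNReal unitInterval

namespace Pool.Agent.PBR

section

variable {G A : Type} [Group G] {gen : A → G}

lemma len_vert_le (ρ : ℕ → A × Bool) (k : ℕ) : len gen (vert gen 1 ρ k) ≤ k :=
  len_le (ball_vert ρ k)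

lemma lt_len_mul_vert (hgen : Subgroup.closure (range gen) = ⊤) (ρ : ℕ → A × Bool) (v : G)
    {R L k : ℕ} (hk : k ≤ L) (h : R + L < len gen v) : R < len gen (v * vert gen 1 ρ k) := by
  have h1 := le_len_mul hgen v (vert gen 1 ρ k)
  have h2 := len_vert_le (gen := gen) ρ k
  omega

/-- The ray with backtracks is proper. -/
lemma esc_bt (hgen : Subgroup.closure (range gen) = ⊤) (L : ℕ → ℕ) (ρ w : ℕ → A × Bool) (g : G)
    (hL : ∀ R, ∃ N, ∀ n, N ≤ n → R + L n < len gen (vert gen g w n)) :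
    Esc gen (vert gen g (bt L ρ w)) := by
  intro R
  obtain ⟨N, hN⟩ := hL R
  refine ⟨T L N, fun k hk => ?_⟩
  have h1 := idx_le L k
  have h2 := lt_idx L k
  have h3 : N < idx L k + 1 := (T_strictMono L).lt_iff_lt.mp (hk.trans_lt h2)
  generalize idx L k = n at h1 h2 h3
  obtain ⟨j, rfl⟩ := Nat.exists_eq_add_of_le h1
  rw [T_succ] at h2
  have h4 := hN n (by omega)
  rcases le_or_gt j (L n) with hj | hj
  · rw [vert_up gen L ρ w g n (vert_T gen L ρ w g n) j hj]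
    exact lt_len_mul_vert hgen ρ _ hj h4
  · obtain ⟨i, rfl⟩ := Nat.exists_eq_add_of_le hj.le
    rw [vert_down gen L ρ w g n (vert_T gen L ρ w g n) i (by omega)]
    exact lt_len_mul_vert hgen ρ _ (by omega) h4

end

section

variable {G A X : Type} [Group G] [TopologicalSpace X] [MulAction G X]
  [ContinuousConstSMul G X]
variable (gen : A → G) {x₀ : X} (γ : ∀ a, Path x₀ (gen a • x₀))

lemma kap_notMem (hgen : Subgroup.closure (range gen) = ⊤) {C : Set X} {R L : ℕ}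
    (hR : ∀ g l t, edge gen γ g l t ∈ C → len gen g ≤ R) {v : G} (h : R + L < len gen v)
    (l : A × Bool) (ρ : ℕ → A × Bool) {y : ℝ} (hy : y ≤ L) : kap gen γ v l ρ y ∉ C := by
  intro hmem
  rcases le_or_gt 0 y with h0 | h0
  · have h1 := Nat.floor_le h0
    have h2 := Nat.lt_floor_add_one y
    rw [show y = ⌊y⌋₊ + (y - ⌊y⌋₊) by ring,
      kap_pos gen γ _ _ _ _ (by linarith) (by linarith)] at hmem
    have h3 := hR _ _ _ hmem
    have h4 : ⌊y⌋₊ ≤ L := by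
      have : ((⌊y⌋₊ : ℕ) : ℝ) ≤ L := h1.trans hy
      exact_mod_cast this
    have h5 := lt_len_mul_vert hgen ρ v h4 h
    omega
  · rw [show y = -(-y) by ring, kap_neg gen γ _ _ _ (by linarith)] at hmem
    have h3 := hR _ _ _ hmem
    omega

/-- The homotopy on a block. -/
noncomputable def blkHom (L : ℕ → ℕ) (ρ w : ℕ → A × Bool) (g : G) (n : ℕ) (p : ℝ × I) : X :=
  kap gen γ (vert gen g w n) (w n) ρ
    ((1 - (p.2 : ℝ)) * (L n - |(2 * L n + 1) * p.1 - L n|) - p.2 * p.1)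

lemma continuous_blkHom (L : ℕ → ℕ) (ρ w : ℕ → A × Bool) (g : G) (n : ℕ) :
    Continuous (blkHom gen γ L ρ w g n) := by
  unfold blkHom
  exact (continuous_kap gen γ _ _ _).comp (by fun_prop)

lemma blkHom_match (L : ℕ → ℕ) (ρ w : ℕ → A × Bool) (g : G) (n : ℕ) (u : I) :
    blkHom gen γ L ρ w g n (1, u) = blkHom gen γ L ρ w g (n + 1) (0, u) := by
  unfold blkHom
  have e1 : (1 - (u : ℝ)) * (L n - |(2 * L n + 1) * (1 : ℝ) - L n|) - u * 1 = -1 := by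
    rw [abs_of_nonneg (by ring_nf; positivity)]
    ring
  have e2 : (1 - (u : ℝ)) * (L (n + 1) - |(2 * L (n + 1) + 1) * (0 : ℝ) - L (n + 1)|) - u * 0
      = 0 := by
    rw [mul_zero, zero_sub, abs_neg, abs_of_nonneg (by positivity)]
    ring
  show kap gen γ (vert gen g w n) (w n) ρ
      ((1 - (u : ℝ)) * (L n - |(2 * L n + 1) * (1 : ℝ) - L n|) - u * 1) =
    kap gen γ (vert gen g w (n + 1)) (w (n + 1)) ρ
      ((1 - (u : ℝ)) * (L (n + 1) - |(2 * L (n + 1) + 1) * (0 : ℝ) - L (n + 1)|) - u * 0)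
  rw [e1, e2, kap_zero, kap_neg gen γ _ _ _ zero_le_one, edge_one]
  rfl

/-- The reparametrisation. -/
noncomputable def theta (L : ℕ → ℕ) (t : ℝ≥0) : ℝ≥0 :=
  Real.toNNReal (T L ⌊t⌋₊ + (2 * L ⌊t⌋₊ + 1) * ((t : ℝ) - (⌊t⌋₊ : ℝ)))

lemma continuous_theta (L : ℕ → ℕ) : Continuous (theta L) := by
  have h := continuous_glue (X := ℝ≥0) (Y := Unit)
    (f := fun n p => Real.toNNReal (T L n + (2 * L n + 1) * p.1))
    (fun n => continuous_real_toNNReal.comp (by fun_prop))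
    (fun n y => by
      show Real.toNNReal (T L n + (2 * L n + 1) * (1 : ℝ)) =
        Real.toNNReal (T L (n + 1) + (2 * L (n + 1) + 1) * (0 : ℝ))
      congr 1
      rw [T_succ]
      push_cast
      ring)
  have h2 : Continuous (fun t : ℝ≥0 => ((t, ()) : ℝ≥0 × Unit)) := by fun_prop
  exact h.comp h2

lemma frac_nonneg (t : ℝ≥0) : 0 ≤ (t : ℝ) - (⌊t⌋₊ : ℝ) := by
  have h : ((⌊t⌋₊ : ℕ) : ℝ≥0) ≤ t := Nat.floor_le zero_le
  have h' : ((⌊t⌋₊ : ℕ) : ℝ) ≤ t := by exact_mod_cast h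
  linarith

lemma frac_le (t : ℝ≥0) : (t : ℝ) - (⌊t⌋₊ : ℝ) ≤ 1 := by
  have h : t < ((⌊t⌋₊ : ℕ) : ℝ≥0) + 1 := Nat.lt_floor_add_one t
  have h' : (t : ℝ) < ((⌊t⌋₊ : ℕ) : ℝ) + 1 := by exact_mod_cast h
  linarith

lemma coe_theta (L : ℕ → ℕ) (t : ℝ≥0) : (theta L t : ℝ) =
    T L ⌊t⌋₊ + (2 * L ⌊t⌋₊ + 1) * ((t : ℝ) - (⌊t⌋₊ : ℝ)) := by
  have := frac_nonneg t
  unfold theta
  rw [Real.coe_toNNReal _ (by positivity)]

lemma le_theta (L : ℕ → ℕ) (N : ℝ≥0) : ∃ M : ℝ≥0, ∀ t, M ≤ t → N ≤ theta L t := by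
  refine ⟨⌈N⌉₊, fun t ht => ?_⟩
  have h1 : ⌈N⌉₊ ≤ ⌊t⌋₊ := Nat.le_floor ht
  have h2 := le_T L ⌊t⌋₊
  have h3 := Nat.le_ceil N
  have h4 := frac_nonneg t
  rw [← NNReal.coe_le_coe, coe_theta]
  have h3' : (N : ℝ) ≤ ((⌈N⌉₊ : ℕ) : ℝ) := by exact_mod_cast h3
  have h1' : ((⌈N⌉₊ : ℕ) : ℝ) ≤ ((⌊t⌋₊ : ℕ) : ℝ) := by exact_mod_cast h1
  have h2' : ((⌊t⌋₊ : ℕ) : ℝ) ≤ ((T L ⌊t⌋₊ : ℕ) : ℝ) := by exact_mod_cast h2
  have h5 : 0 ≤ (2 * (L ⌊t⌋₊ : ℝ) + 1) * ((t : ℝ) - (⌊t⌋₊ : ℝ)) := by positivity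
  linarith

variable [ProperlyDiscontinuousSMul G X] [T2Space X] [LocallyCompactSpace X] [Finite A]

/-- The ray with backtracks is proper, and properly homotopic to the original ray. -/
theorem phom_bt (hgen : Subgroup.closure (range gen) = ⊤) (L : ℕ → ℕ) (ρ w : ℕ → A × Bool)
    (g : G) (hL : ∀ R, ∃ N, ∀ n, N ≤ n → R + L n < len gen (vert gen g w n)) :
    IsProperMap (ray gen γ g (bt L ρ w)) ∧ PHom (ray gen γ g w) (ray gen γ g (bt L ρ w)) := by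
  have hprop : IsProperMap (ray gen γ g (bt L ρ w)) :=
    (proper_ray_iff_esc gen γ hgen g _).mpr (esc_bt hgen L ρ w g hL)
  refine ⟨hprop, ?_⟩
  have h1 : PHom ((ray gen γ g (bt L ρ w)) ∘ theta L) (ray gen γ g w) := by
    refine ⟨fun p => blkHom gen γ L ρ w g ⌊p.1⌋₊ ((p.1 : ℝ) - (⌊p.1⌋₊ : ℝ), p.2),
      (proper_iff _).mpr ⟨?_, ?_⟩, ?_, ?_⟩
    · exact continuous_glue (continuous_blkHom gen γ L ρ w g) (blkHom_match gen γ L ρ w g)
    · intro C hC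
      obtain ⟨R, hR⟩ := edge_avoid gen γ hC
      obtain ⟨N, hN⟩ := hL R
      refine ⟨N, fun t u ht => ?_⟩
      have hn : N ≤ ⌊t⌋₊ := Nat.le_floor ht
      refine kap_notMem gen γ hgen hR (hN _ hn) _ _ ?_
      show (1 - (u : ℝ)) * (L ⌊t⌋₊ - |(2 * L ⌊t⌋₊ + 1) * ((t : ℝ) - (⌊t⌋₊ : ℝ)) - L ⌊t⌋₊|) -
        u * ((t : ℝ) - (⌊t⌋₊ : ℝ)) ≤ L ⌊t⌋₊
      have hu0 := u.2.1
      have hu1 := u.2.2
      have ht0 := frac_nonneg t
      have ha := abs_nonneg ((2 * (L ⌊t⌋₊ : ℝ) + 1) * ((t : ℝ) - (⌊t⌋₊ : ℝ)) - L ⌊t⌋₊)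
      have hL0 : (0 : ℝ) ≤ L ⌊t⌋₊ := Nat.cast_nonneg _
      have e1 : 0 ≤ (1 - (u : ℝ)) * |(2 * (L ⌊t⌋₊ : ℝ) + 1) * ((t : ℝ) - (⌊t⌋₊ : ℝ)) - L ⌊t⌋₊| :=
        mul_nonneg (by linarith) ha
      have e2 : 0 ≤ (u : ℝ) * L ⌊t⌋₊ := mul_nonneg hu0 hL0
      have e3 : 0 ≤ (u : ℝ) * ((t : ℝ) - (⌊t⌋₊ : ℝ)) := mul_nonneg hu0 ht0
      nlinarith
    · intro t
      show blkHom gen γ L ρ w g ⌊t⌋₊ ((t : ℝ) - (⌊t⌋₊ : ℝ), 0) =
        ray gen γ g (bt L ρ w) (theta L t)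
      have ht0 := frac_nonneg t
      have ht1 := frac_le t
      rw [ray_bt gen γ L ρ w g ⌊t⌋₊ (x := (2 * L ⌊t⌋₊ + 1) * ((t : ℝ) - (⌊t⌋₊ : ℝ)))
        (by positivity) ?_ _ (coe_theta L t)]
      · unfold blkHom
        congr 1
        simp
      · have : 0 ≤ (2 * (L ⌊t⌋₊ : ℝ) + 1) := by positivity
        nlinarith
    · intro t
      show blkHom gen γ L ρ w g ⌊t⌋₊ ((t : ℝ) - (⌊t⌋₊ : ℝ), 1) = ray gen γ g w t
      unfold blkHom ray
      rw [← kap_neg gen γ _ _ ρ (frac_nonneg t)]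
      congr 1
      simp
  exact h1.symm.trans (PHom.reparam hprop (continuous_theta L) (le_theta L))

end

end Pool.Agent.PBR
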