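import Pool.Agent.PBR.Rays

/-!
Word length, finiteness of balls, and the criterion for properness of edge-path rays.
-/

set_option autoImplicit false

open Filter Topology Set
open scoped NNReal unitInterval

namespace Pool.Agent.PBR

section

variable {G A : Type} [Group G] {gen : A → G}

lemma Ball.mono {C D : ℕ} (h : C ≤ D) {c : G} (hc : Ball gen C c) : Ball gen D c := by
  obtain ⟨l, hl, rfl⟩ := hc
  exact ⟨l, hl.trans h, rfl⟩

lemma Ball.mul {C D : ℕ} {c d : G} (hc : Ball gen C c) (hd : Ball gen D d) :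
    Ball gen (C + D) (c * d) := by
  obtain ⟨l, hl, rfl⟩ := hc
  obtain ⟨m, hm, rfl⟩ := hd
  exact ⟨l ++ m, by simp; omega, by simp⟩

lemma Ball.one (C : ℕ) : Ball gen C 1 := ⟨[], by simp, by simp⟩

lemma Ball.val (l : A × Bool) : Ball gen 1 (val gen l) := ⟨[l], by simp, by simp⟩

lemma Ball.inv {C : ℕ} {c : G} (hc : Ball gen C c) : Ball gen C c⁻¹ := by
  obtain ⟨l, hl, rfl⟩ := hc
  refine ⟨(l.map PBR.inv).reverse, by simpa using hl, ?_⟩
  rw [List.map_reverse, List.map_map, List.prod_inv_reverse, List.map_map]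
  congr 1
  congr 1
  apply List.map_congr_left
  intro a _
  simp [val_inv]

lemma ball_finite [Finite A] (C : ℕ) : {c : G | Ball gen C c}.Finite := by
  have h := (List.finite_length_le (A × Bool) C).image
    (fun l : List (A × Bool) => (l.map (PBR.val gen)).prod)
  apply h.subset
  rintro c ⟨l, hl, rfl⟩
  exact ⟨l, hl, rfl⟩

lemma exists_ball (hgen : Subgroup.closure (range gen) = ⊤) (g : G) : ∃ n, Ball gen n g := by
  have hg : g ∈ Subgroup.closure (range gen) := by rw [hgen]; trivial
  induction hg using Subgroup.closure_induction with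
  | mem x hx =>
    obtain ⟨a, rfl⟩ := hx
    exact ⟨1, by simpa [PBR.val] using Ball.val (gen := gen) (a, true)⟩
  | one => exact ⟨0, Ball.one 0⟩
  | mul x y _ _ hx hy =>
    obtain ⟨n, hn⟩ := hx
    obtain ⟨m, hm⟩ := hy
    exact ⟨n + m, hn.mul hm⟩
  | inv x _ hx =>
    obtain ⟨n, hn⟩ := hx
    exact ⟨n, hn.inv⟩

open Classical in
/-- The word length. -/
noncomputable def len (gen : A → G) (g : G) : ℕ :=
  if h : ∃ n, Ball gen n g then Nat.find h else 0

lemma ball_len (hgen : Subgroup.closure (range gen) = ⊤) (g : G) : Ball gen (len gen g) g := by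
  classical
  unfold len
  rw [dif_pos (exists_ball hgen g)]
  exact Nat.find_spec (exists_ball hgen g)

lemma len_le {C : ℕ} {g : G} (h : Ball gen C g) : len gen g ≤ C := by
  classical
  unfold len
  rw [dif_pos ⟨C, h⟩]
  exact Nat.find_min' _ h

lemma len_mul_le (hgen : Subgroup.closure (range gen) = ⊤) (g h : G) :
    len gen (g * h) ≤ len gen g + len gen h :=
  len_le ((ball_len hgen g).mul (ball_len hgen h))

lemma len_inv_le (hgen : Subgroup.closure (range gen) = ⊤) (g : G) :
    len gen g⁻¹ ≤ len gen g := len_le (ball_len hgen g).inv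

lemma le_len_mul (hgen : Subgroup.closure (range gen) = ⊤) (g h : G) :
    len gen g ≤ len gen (g * h) + len gen h := by
  have h1 := len_mul_le hgen (g * h) h⁻¹
  have h2 := len_inv_le hgen h
  rw [mul_inv_cancel_right] at h1
  omega

lemma ball_vert (w : ℕ → A × Bool) (n : ℕ) : Ball gen n (vert gen 1 w n) := by
  induction n with
  | zero => exact Ball.one 0
  | succ n ih => exact ih.mul (Ball.val _)

/-- A sequence of group elements leaves every finite set. -/
def Esc (gen : A → G) (v : ℕ → G) : Prop := ∀ R : ℕ, ∃ N, ∀ n, N ≤ n → R < len gen (v n)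

lemma esc_of_finite [Finite A] (hgen : Subgroup.closure (range gen) = ⊤) {v : ℕ → G}
    (h : ∀ F : Set G, F.Finite → ∃ N, ∀ n, N ≤ n → v n ∉ F) : Esc gen v := by
  intro R
  obtain ⟨N, hN⟩ := h _ (ball_finite (gen := gen) R)
  refine ⟨N, fun n hn => ?_⟩
  by_contra hlt
  exact hN n hn ((ball_len hgen (v n)).mono (not_lt.mp hlt))

lemma len_bdd_of_finite {F : Set G} (hF : F.Finite) : ∃ R, ∀ g ∈ F, len gen g ≤ R := by
  obtain ⟨R, hR⟩ := (hF.image (len gen)).bddAbove
  exact ⟨R, fun g hg => hR ⟨g, hg, rfl⟩⟩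

end

section

variable {G A X : Type} [Group G] [TopologicalSpace X] [MulAction G X]
  [ContinuousConstSMul G X] [ProperlyDiscontinuousSMul G X]
variable (gen : A → G) {x₀ : X} (γ : ∀ a, Path x₀ (gen a • x₀))

/-- Only finitely many vertices have edges which meet a given compact set. -/
lemma edge_avoid [Finite A] {C : Set X} (hC : IsCompact C) :
    ∃ R : ℕ, ∀ g l t, edge gen γ g l t ∈ C → len gen g ≤ R := by
  classical
  have hB : IsCompact (⋃ a, range (γ a)) :=
    isCompact_iUnion fun a => isCompact_range (γ a).continuous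
  have hfin := ProperlyDiscontinuousSMul.finite_disjoint_inter_image (Γ := G) hB hC
  set F : Set G := {g : G | ((g • ·) '' (⋃ a, range (γ a)) ∩ C).Nonempty} with hF
  have hF2 : (⋃ a : A, (fun g => g * gen a) '' F).Finite :=
    finite_iUnion fun a => hfin.image _
  obtain ⟨R, hR⟩ := len_bdd_of_finite (gen := gen) (hfin.union hF2)
  refine ⟨R, fun g l t h => hR g ?_⟩
  obtain ⟨a, b⟩ := l
  have hex : ∀ s : ℝ, (γ a).extend s ∈ ⋃ a, range (γ a) := by
    intro s
    have h1 : (γ a).extend s ∈ range (γ a) := by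
      rw [← Path.extend_range]
      exact mem_range_self s
    exact mem_iUnion.mpr ⟨a, h1⟩
  cases b
  · right
    rw [mem_iUnion]
    refine ⟨a, g * (gen a)⁻¹, ?_, by simp⟩
    rw [hF, mem_setOf_eq]
    exact ⟨_, ⟨_, hex (1 - t), rfl⟩, by simpa [edge] using h⟩
  · left
    rw [hF, mem_setOf_eq]
    exact ⟨_, ⟨_, hex t, rfl⟩, by simpa [edge] using h⟩

/-- Properness of an edge-path ray. -/
lemma proper_ray_iff_esc [Finite A] [T2Space X] [LocallyCompactSpace X]
    (hgen : Subgroup.closure (range gen) = ⊤) (g : G)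
    (w : ℕ → A × Bool) : IsProperMap (ray gen γ g w) ↔ Esc gen (vert gen g w) := by
  rw [proper_ray_iff]
  constructor
  · rintro ⟨-, h⟩
    apply esc_of_finite hgen
    intro F hF
    obtain ⟨N, hN⟩ := h ((fun g : G => g • x₀) '' F) (hF.image _).isCompact
    refine ⟨⌈N⌉₊, fun n hn hmem => ?_⟩
    have h1 : N ≤ (n : ℝ≥0) := (Nat.le_ceil N).trans (by exact_mod_cast hn)
    apply hN n h1
    refine ⟨_, hmem, ?_⟩
    show vert gen g w n • x₀ = ray gen γ g w n
    rw [ray_add gen γ g w n le_rfl zero_le_one n (by simp), edge_zero]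
  · intro h
    refine ⟨continuous_ray gen γ g w, fun C hC => ?_⟩
    obtain ⟨R, hR⟩ := edge_avoid gen γ hC
    obtain ⟨N, hN⟩ := h R
    refine ⟨N, fun t ht hmem => ?_⟩
    have h1 := hR _ _ _ hmem
    have h2 := hN ⌊t⌋₊ (Nat.le_floor ht)
    omega

end

end Pool.Agent.PBR
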