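import Pool.Agent.PBR.Bdd

/-!
The periodic sequence of an element with no power conjugate into a peripheral subgroup is
parabolically bounded.
-/

set_option autoImplicit false

open Filter Topology Set

namespace Pool.Agent.PBR

variable {G A : Type} [Group G] {gen : A → G}

lemma vert_add (g : G) (w : ℕ → A × Bool) (n k : ℕ) :
    vert gen g w (n + k) = vert gen (vert gen g w n) (fun i => w (n + i)) k := by
  induction k with
  | zero => rfl
  | succ k ih =>
    show vert gen g w (n + k) * val gen (w (n + k)) = _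
    rw [ih]
    rfl

/-- The periodic word. -/
def per (l : List (A × Bool)) (hl : 0 < l.length) (n : ℕ) : A × Bool :=
  l[n % l.length]'(Nat.mod_lt _ hl)

lemma vert_per_take (l : List (A × Bool)) (hl : 0 < l.length) (k : ℕ) (hk : k ≤ l.length) :
    vert gen 1 (per l hl) k = ((l.take k).map (val gen)).prod := by
  induction k with
  | zero => simp [vert]
  | succ k ih =>
    have h1 : k < l.length := by omega
    show vert gen 1 (per l hl) k * val gen (per l hl k) = _
    rw [ih (by omega), List.take_succ_eq_append_getElem h1, List.map_append, List.prod_append]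
    unfold per
    simp [Nat.mod_eq_of_lt h1]

lemma vert_per_mul (l : List (A × Bool)) (hl : 0 < l.length) (q : ℕ) :
    vert gen 1 (per l hl) (l.length * q) = ((l.map (val gen)).prod) ^ q := by
  induction q with
  | zero => simp [vert]
  | succ q ih =>
    rw [mul_add, mul_one, vert_add, ih]
    have e : (fun i => per l hl (l.length * q + i)) = per l hl := by
      funext i
      unfold per
      congr 1
      rw [Nat.mul_add_mod]
    rw [e, pow_succ]
    have h2 := vert_per_take (gen := gen) l hl l.length le_rfl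
    rw [List.take_length] at h2
    conv_lhs => rw [← mul_one ((l.map (val gen)).prod ^ q)]
    rw [vert_mul, h2]

theorem parBdd_per [Finite A] {m : ℕ} (P : Fin m → Subgroup G) (l : List (A × Bool))
    (hl : 0 < l.length)
    (h : ∀ (i : Fin m) (g : G) (k : ℕ), 0 < k → g * ((l.map (val gen)).prod) ^ k * g⁻¹ ∉ P i) :
    ParBdd gen P (vert gen 1 (per l hl)) := by
  classical
  intro C
  set B := (ball_finite (gen := gen) C).toFinset with hB
  set d := l.length with hd
  refine ⟨d * (B.card + 1), fun i g a b hab hv => ?_⟩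
  by_contra hlt
  push Not at hlt
  have hda := Nat.div_add_mod a d
  have hma := Nat.mod_lt a hl
  have hq : ∀ j : ℕ, j ≤ B.card → a ≤ d * (a / d + 1 + j) ∧ d * (a / d + 1 + j) ≤ b := by
    intro j hj
    have e1 : d * (a / d + 1 + j) = d * (a / d) + d + d * j := by ring
    have e2 : d * j ≤ d * B.card := Nat.mul_le_mul_left _ hj
    have e3 : d * (B.card + 1) = d * B.card + d := by ring
    rw [e3] at hlt
    rw [e1]
    omega
  have hx : ∀ j : ℕ, ∃ c : G, j ≤ B.card → c ∈ B ∧ ∃ p ∈ P i,
      ((l.map (val gen)).prod) ^ (a / d + 1 + j) = g * p * c := by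
    intro j
    by_cases hj : j ≤ B.card
    · obtain ⟨h1, h2⟩ := hq j hj
      obtain ⟨p, hp, c, hc, e⟩ := hv _ h1 h2
      rw [hd, vert_per_mul] at e
      refine ⟨c, fun _ => ⟨?_, p, hp, e⟩⟩
      rw [hB, Finite.mem_toFinset]
      exact hc
    · exact ⟨1, fun h => absurd h hj⟩
  choose c hc using hx
  obtain ⟨j, hj, k, hk, hjk, ejk⟩ := Finset.exists_ne_map_eq_of_card_lt_of_maps_to
    (s := Finset.range (B.card + 1)) (t := B) (f := c) (by simp)
    (fun j hj => (hc j (by simpa [Nat.lt_succ_iff] using hj)).1)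
  have key : ∀ j k : ℕ, j < k → k ≤ B.card → c j = c k → False := by
    intro j k hjk hk e
    obtain ⟨-, p, hp, ep⟩ := hc j (by omega)
    obtain ⟨-, p', hp', ep'⟩ := hc k hk
    obtain ⟨r, rfl⟩ := Nat.exists_eq_add_of_lt hjk
    apply h i g⁻¹ (r + 1) (by omega)
    have e1 : ((l.map (val gen)).prod) ^ (r + 1) =
        ((l.map (val gen)).prod) ^ (a / d + 1 + (j + r + 1)) *
          (((l.map (val gen)).prod) ^ (a / d + 1 + j))⁻¹ := by
      rw [eq_mul_inv_iff_mul_eq, ← pow_add]
      congr 1
      omega
    rw [e1, ep, ep', e]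
    have e2 : g⁻¹ * (g * p' * c (j + r + 1) * (g * p * c (j + r + 1))⁻¹) * g⁻¹⁻¹ = p' * p⁻¹ := by
      group
    rw [e2]
    exact mul_mem hp' (inv_mem hp)
  have hj' : j ≤ B.card := by simpa [Nat.lt_succ_iff] using hj
  have hk' : k ≤ B.card := by simpa [Nat.lt_succ_iff] using hk
  rcases lt_or_gt_of_ne hjk with hlt' | hlt'
  · exact key j k hlt' hk' ejk
  · exact key k j hlt' hj' ejk.symm

/-- Existence of parabolically bounded edge paths. -/
theorem exists_parBdd [Finite A] (hgen : Subgroup.closure (range gen) = ⊤) {m : ℕ}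
    (P : Fin m → Subgroup G) (h : G)
    (hh : ∀ (i : Fin m) (g : G) (k : ℕ), 0 < k → g * h ^ k * g⁻¹ ∉ P i) (w : ℕ → A × Bool) :
    ∃ ρ : ℕ → A × Bool, ParBdd gen P (vert gen 1 ρ) := by
  obtain ⟨n, l, -, rfl⟩ := exists_ball hgen h
  rcases Nat.eq_zero_or_pos l.length with hl | hl
  · have hm : m = 0 := by
      by_contra hm
      have := hh ⟨0, by omega⟩ 1 1 one_pos
      rw [List.length_eq_zero_iff] at hl
      subst hl
      simp at this
    subst hm
    exact ⟨w, fun C => ⟨0, fun i => i.elim0⟩⟩
  · exact ⟨per l hl, parBdd_per P l hl hh⟩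

end Pool.Agent.PBR
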