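import Pool.Agent.PBR.Hom
import Pool.Agent.PBR.Lox

/-!
Parabolic boundedness restricts nothing.
-/

set_option autoImplicit false

open Filter Topology Set
open scoped NNReal unitInterval

namespace Pool.Agent.PBR

variable {G A X : Type} [Group G] [TopologicalSpace X] [MulAction G X]

/-- Any two proper edge-path rays are properly homotopic. -/
def AllHom (gen : A → G) {x₀ : X} (γ : ∀ a, Path x₀ (gen a • x₀)) : Prop :=
  ∀ (g g' : G) (w w' : ℕ → A × Bool), IsProperMap (ray gen γ g w) →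
    IsProperMap (ray gen γ g' w') → PHom (ray gen γ g w) (ray gen γ g' w')

/-- Any two parabolically bounded proper edge-path rays are properly homotopic. -/
def AllParHom (gen : A → G) {x₀ : X} (γ : ∀ a, Path x₀ (gen a • x₀)) {m : ℕ}
    (P : Fin m → Subgroup G) : Prop :=
  ∀ (g g' : G) (w w' : ℕ → A × Bool), IsProperMap (ray gen γ g w) →
    IsProperMap (ray gen γ g' w') → ParBdd gen P (vert gen g w) →
    ParBdd gen P (vert gen g' w') → PHom (ray gen γ g w) (ray gen γ g' w')

variable [T2Space X] [LocallyCompactSpace X] [ContinuousConstSMul G X]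
  [ProperlyDiscontinuousSMul G X] [Finite A]

/-- Every proper edge-path ray is properly homotopic to a parabolically bounded one, if there is a
parabolically bounded edge path. -/
theorem push (gen : A → G) (hgen : Subgroup.closure (range gen) = ⊤) {x₀ : X}
    (γ : ∀ a, Path x₀ (gen a • x₀)) {m : ℕ} (P : Fin m → Subgroup G) {g₀ : G}
    {w₀ : ℕ → A × Bool} (h₀ : ParBdd gen P (vert gen g₀ w₀)) (g : G) (w : ℕ → A × Bool)
    (hw : IsProperMap (ray gen γ g w)) : ∃ w' : ℕ → A × Bool, IsProperMap (ray gen γ g w') ∧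
      ParBdd gen P (vert gen g w') ∧ PHom (ray gen γ g w) (ray gen γ g w') := by
  have hesc := (proper_ray_iff_esc gen γ hgen g w).mp hw
  obtain ⟨h1, h2⟩ := phom_bt gen γ hgen (lens gen (vert gen g w)) w₀ w g (lens_small hesc)
  exact ⟨_, h1, parBdd_bt (parBdd_vert_iff g₀ 1 w₀ h₀) _ (lens_ruler hesc) w g, h2⟩

theorem equiv_of (gen : A → G) (hgen : Subgroup.closure (range gen) = ⊤) {x₀ : X}
    (γ : ∀ a, Path x₀ (gen a • x₀)) {m : ℕ} (P : Fin m → Subgroup G) {g₀ : G}
    {w₀ : ℕ → A × Bool} (h₀ : ParBdd gen P (vert gen g₀ w₀)) :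
    AllParHom gen γ P ↔ AllHom gen γ := by
  constructor
  · intro h g g' w w' hw hw'
    obtain ⟨v, h1, h2, h3⟩ := push gen hgen γ P h₀ g w hw
    obtain ⟨v', h1', h2', h3'⟩ := push gen hgen γ P h₀ g' w' hw'
    exact (h3.trans (h g g' v v' h1 h1' h2 h2')).trans h3'.symm
  · intro h g g' w w' hw hw' _ _
    exact h g g' w w' hw hw'

theorem main (gen : A → G) (hgen : Subgroup.closure (range gen) = ⊤) {x₀ : X}
    (γ : ∀ a, Path x₀ (gen a • x₀)) {m : ℕ} (P : Fin m → Subgroup G) :
    (∀ (g₀ : G) (w₀ : ℕ → A × Bool), ParBdd gen P (vert gen g₀ w₀) →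
      ∀ (g : G) (w : ℕ → A × Bool), IsProperMap (ray gen γ g w) →
        ∃ w' : ℕ → A × Bool, IsProperMap (ray gen γ g w') ∧ ParBdd gen P (vert gen g w') ∧
          PHom (ray gen γ g w) (ray gen γ g w')) ∧
    (AllParHom gen γ P ↔ AllHom gen γ ∨
      ¬ ∃ (g : G) (w : ℕ → A × Bool), IsProperMap (ray gen γ g w) ∧
        ParBdd gen P (vert gen g w)) ∧
    ∀ h : G, (∀ (i : Fin m) (g : G) (k : ℕ), 0 < k → g * h ^ k * g⁻¹ ∉ P i) →
      (AllParHom gen γ P ↔ AllHom gen γ) := by
  refine ⟨fun g₀ w₀ h₀ g w hw => push gen hgen γ P h₀ g w hw, ⟨?_, ?_⟩, ?_⟩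
  · intro h
    by_cases hex : ∃ (g : G) (w : ℕ → A × Bool), IsProperMap (ray gen γ g w) ∧
        ParBdd gen P (vert gen g w)
    · obtain ⟨g, w, -, hb⟩ := hex
      exact Or.inl ((equiv_of gen hgen γ P hb).mp h)
    · exact Or.inr hex
  · rintro (h | h)
    · intro g g' w w' hw hw' _ _
      exact h g g' w w' hw hw'
    · intro g g' w w' hw _ hb _
      exact absurd ⟨g, w, hw, hb⟩ h
  · intro h hh
    by_cases hex : Nonempty (ℕ → A × Bool)
    · obtain ⟨w⟩ := hex
      obtain ⟨ρ, hρ⟩ := exists_parBdd hgen P h hh w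
      exact equiv_of gen hgen γ P hρ
    · constructor
      · intro _ g g' w
        exact absurd ⟨w⟩ hex
      · intro _ g g' w
        exact absurd ⟨w⟩ hex

end Pool.Agent.PBR
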