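import Pool.Agent.PBR.Basic

/-!
Edge paths and edge-path rays in a space with an action of a group and a marked Cayley graph.
-/

set_option autoImplicit false

open Filter Topology Set
open scoped NNReal unitInterval

namespace Pool.Agent.PBR

section

variable {G A : Type} [Group G]

/-- The value of a letter: a generator or its inverse. -/
def val (gen : A → G) (l : A × Bool) : G := if l.2 then gen l.1 else (gen l.1)⁻¹

/-- The inverse letter. -/
def inv (l : A × Bool) : A × Bool := (l.1, !l.2)

/-- The vertices of the edge path which starts at `g` and reads the letters `w`. -/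
def vert (gen : A → G) (g : G) (w : ℕ → A × Bool) : ℕ → G
  | 0 => g
  | n + 1 => vert gen g w n * val gen (w n)

/-- `c` is in the ball of radius `C` about the identity in the word metric. -/
def Ball (gen : A → G) (C : ℕ) (c : G) : Prop :=
  ∃ l : List (A × Bool), l.length ≤ C ∧ (l.map (val gen)).prod = c

/-- The vertices at distance at most `C` from the coset `g P`. -/
def Nbh (gen : A → G) (P : Subgroup G) (C : ℕ) (g : G) : Set G :=
  {x | ∃ p ∈ P, ∃ c, Ball gen C c ∧ x = g * p * c}

/-- Parabolically bounded sequences of vertices. -/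
def ParBdd (gen : A → G) {m : ℕ} (P : Fin m → Subgroup G) (v : ℕ → G) : Prop :=
  ∀ C : ℕ, ∃ K : ℕ, ∀ (i : Fin m) (g : G) (a b : ℕ), a ≤ b →
    (∀ n, a ≤ n → n ≤ b → v n ∈ Nbh gen (P i) C g) → b - a ≤ K

lemma val_inv (gen : A → G) (l : A × Bool) : val gen (inv l) = (val gen l)⁻¹ := by
  obtain ⟨a, b⟩ := l
  cases b <;> simp [val, inv]

lemma vert_mul (gen : A → G) (h g : G) (w : ℕ → A × Bool) (n : ℕ) :
    vert gen (h * g) w n = h * vert gen g w n := by
  induction n with
  | zero => rfl
  | succ n ih => simp only [vert, ih, mul_assoc]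

lemma vert_congr (gen : A → G) (g : G) {w w' : ℕ → A × Bool} {n : ℕ}
    (h : ∀ i < n, w i = w' i) : vert gen g w n = vert gen g w' n := by
  induction n with
  | zero => rfl
  | succ n ih =>
    simp only [vert]
    rw [ih (fun i hi => h i (by omega)), h n (by omega)]

end

section

variable {G A X : Type} [Group G] [TopologicalSpace X] [MulAction G X]

/-- The edge with label `l` which starts at the vertex `g`, parametrised by `[0, 1]`. -/
noncomputable def edge (gen : A → G) {x₀ : X} (γ : ∀ a, Path x₀ (gen a • x₀)) (g : G)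
    (l : A × Bool) (t : ℝ) : X :=
  if l.2 then g • (γ l.1).extend t else (g * (gen l.1)⁻¹) • (γ l.1).extend (1 - t)

/-- The edge-path ray which starts at the vertex `g` and reads the letters `w`. -/
noncomputable def ray (gen : A → G) {x₀ : X} (γ : ∀ a, Path x₀ (gen a • x₀)) (g : G)
    (w : ℕ → A × Bool) (t : ℝ≥0) : X :=
  edge gen γ (vert gen g w ⌊t⌋₊) (w ⌊t⌋₊) ((t : ℝ) - (⌊t⌋₊ : ℝ))

variable (gen : A → G) {x₀ : X} (γ : ∀ a, Path x₀ (gen a • x₀))

lemma edge_zero (g : G) (l : A × Bool) : edge gen γ g l 0 = g • x₀ := by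
  unfold edge
  split_ifs
  · simp
  · simp [mul_smul]

lemma edge_one (g : G) (l : A × Bool) : edge gen γ g l 1 = (g * val gen l) • x₀ := by
  unfold edge val
  split_ifs
  · simp [mul_smul]
  · simp

lemma edge_nonpos (g : G) (l : A × Bool) {t : ℝ} (ht : t ≤ 0) :
    edge gen γ g l t = edge gen γ g l 0 := by
  unfold edge
  split_ifs
  · rw [Path.extend_of_le_zero _ ht, Path.extend_zero]
  · rw [Path.extend_of_one_le _ (by linarith), sub_zero, Path.extend_one]

lemma edge_mul (h g : G) (l : A × Bool) (t : ℝ) :
    edge gen γ (h * g) l t = h • edge gen γ g l t := by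
  unfold edge
  split_ifs
  · rw [mul_smul]
  · rw [mul_assoc, mul_smul]

/-- Travelling an edge backwards. -/
lemma edge_inv (g : G) (l : A × Bool) (t : ℝ) :
    edge gen γ (g * val gen l) (inv l) t = edge gen γ g l (1 - t) := by
  obtain ⟨a, b⟩ := l
  cases b
  · simp [edge, val, inv]
  · simp [edge, val, inv]

lemma continuous_edge [ContinuousConstSMul G X] (g : G) (l : A × Bool) :
    Continuous (edge gen γ g l) := by
  unfold edge
  split_ifs
  · exact ((γ l.1).continuous_extend).const_smul g
  · exact (((γ l.1).continuous_extend).comp (by fun_prop)).const_smul _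

/-- The ray on the closed unit intervals. -/
lemma ray_add (g : G) (w : ℕ → A × Bool) (k : ℕ) {x : ℝ} (h0 : 0 ≤ x) (h1 : x ≤ 1) (t : ℝ≥0)
    (ht : (t : ℝ) = k + x) : ray gen γ g w t = edge gen γ (vert gen g w k) (w k) x := by
  rcases h1.lt_or_eq with h | h
  · have hfl : ⌊t⌋₊ = k := by
      rw [Nat.floor_eq_iff zero_le]
      constructor
      · rw [← NNReal.coe_le_coe]
        push_cast
        linarith
      · rw [← NNReal.coe_lt_coe]
        push_cast
        linarith
    unfold ray
    rw [hfl, ht]
    congr 1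
    ring
  · have hfl : ⌊t⌋₊ = k + 1 := by
      rw [Nat.floor_eq_iff zero_le]
      constructor
      · rw [← NNReal.coe_le_coe]
        push_cast
        linarith
      · rw [← NNReal.coe_lt_coe]
        push_cast
        linarith
    unfold ray
    rw [hfl, ht, h]
    push_cast
    rw [show (k : ℝ) + 1 - (k + 1) = 0 by ring, edge_zero, edge_one]
    rfl

lemma ray_zero (g : G) (w : ℕ → A × Bool) : ray gen γ g w 0 = g • x₀ := by
  rw [ray_add gen γ g w 0 le_rfl zero_le_one 0 (by simp), edge_zero]
  rfl

lemma continuous_ray [ContinuousConstSMul G X] (g : G) (w : ℕ → A × Bool) :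
    Continuous (ray gen γ g w) := by
  have h := continuous_glue (X := X) (Y := Unit)
    (f := fun n p => edge gen γ (vert gen g w n) (w n) p.1)
    (fun n => (continuous_edge gen γ _ _).comp continuous_fst)
    (fun n y => by
      show edge gen γ (vert gen g w n) (w n) 1 = edge gen γ (vert gen g w (n + 1)) (w (n + 1)) 0
      rw [edge_one, edge_zero]
      rfl)
  have h2 : Continuous (fun t : ℝ≥0 => ((t, ()) : ℝ≥0 × Unit)) := by fun_prop
  exact h.comp h2

/-- The ray read backwards: `rev ρ L` reads the first `L` letters of `ρ` backwards. -/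
def rev (ρ : ℕ → A × Bool) (L : ℕ) : ℕ → A × Bool := fun i => inv (ρ (L - 1 - i))

lemma vert_rev (g : G) (ρ : ℕ → A × Bool) (L k : ℕ) (hk : k ≤ L) :
    vert gen (vert gen g ρ L) (rev ρ L) k = vert gen g ρ (L - k) := by
  induction k with
  | zero => rfl
  | succ k ih =>
    have h1 : vert gen (vert gen g ρ L) (rev ρ L) (k + 1) =
        vert gen (vert gen g ρ L) (rev ρ L) k * val gen (rev ρ L k) := rfl
    rw [h1, ih (by omega)]
    unfold rev
    rw [val_inv]
    obtain ⟨j, hj⟩ : ∃ j, L - k = j + 1 := ⟨L - k - 1, by omega⟩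
    have h2 : L - 1 - k = j := by omega
    have h3 : L - (k + 1) = j := by omega
    rw [hj, h2, h3]
    show vert gen g ρ j * val gen (ρ j) * (val gen (ρ j))⁻¹ = vert gen g ρ j
    rw [mul_inv_cancel_right]

end

end Pool.Agent.PBR
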